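import Pool.Agent.Work.MP_36677d_fm.FM7

/-! # Local version: end layers in hereditarily decomposable segments (helper57) -/

set_option autoImplicit false

open Set Filter Topology

namespace Pool.FN57

open Pool.TL94 Pool.FA57 Pool.FL57 Pool.FM57

variable {M : Type} [MetricSpace M]

/-- hereditarily unicoherent -/
structure LU (M : Type) [MetricSpace M] : Prop where
  hu : HU M
  sc : ∀ a b : M, Cont (seg a b)

/-- every nondegenerate subcontinuum of `Q` is decomposable -/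
def HDc (Q : Set M) : Prop := ∀ C : Set M, Cont C → C ⊆ Q → ∀ x ∈ C, ∀ y ∈ C, x ≠ y →
  ∃ A B : Set M, Cont A ∧ Cont B ∧ A ⊆ C ∧ B ⊆ C ∧ ¬ C ⊆ A ∧ ¬ C ⊆ B ∧ C ⊆ A ∪ B

theorem HDc.mono {Q Q' : Set M} (h : HDc Q) (hQ : Q' ⊆ Q) : HDc Q' :=
  fun C hC hCQ => h C hC (hCQ.trans hQ)

theorem LU.btw (h : LU M) {p a b c : M} (h1 : b ∈ seg p c) (h2 : b ∉ seg p a) :
    b ∈ seg a c := by
  intro C hC ha hc
  rcases h1 (seg p a ∪ C) ((h.sc p a).union hC ⟨a, right_mem _ _, ha⟩) (Or.inl (left_mem _ _))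
    (Or.inr hc) with h3 | h3
  · exact absurd h3 h2
  · exact h3

theorem LU.sub (h : LU M) {p a c : M} {C : Set M} (hC : Cont C) (ha : a ∈ C) (hc : c ∈ C) :
    seg p c ⊆ seg p a ∪ C :=
  seg_sub ((h.sc p a).union hC ⟨a, right_mem _ _, ha⟩) (Or.inl (left_mem _ _)) (Or.inr hc)

/-- complements of initial pieces -/
theorem LU.clo (h : LU M) {p b : M} {Q : Set M} (hQ : Cont Q) (hp : p ∈ Q) (hQX : Q ⊆ seg p b)
    (hb : b ∉ Q) : Cont (closure (seg p b \ Q)) := by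
  have hEK : closure (seg p b \ Q) ⊆ seg p b := closure_minimal sdiff_subset (isClosed_seg _ _)
  refine ⟨(h.sc p b).cpt.of_isClosed_subset isClosed_closure hEK, ?_⟩
  by_contra hEp
  rw [isPreconnected_closed_iff] at hEp
  push Not at hEp
  obtain ⟨t, t', ht, ht', hsub, h1, h2, hemp⟩ := hEp
  have hemp' : ¬ (closure (seg p b \ Q) ∩ (t ∩ t')).Nonempty := by
    rw [hemp]
    exact Set.not_nonempty_empty
  have hbE : b ∈ closure (seg p b \ Q) := subset_closure ⟨right_mem _ _, hb⟩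
  rcases hsub hbE with h3 | h3
  · obtain ⟨h4, h5⟩ := half_cont (h.sc p b) hQ hQX ⟨p, hp⟩ rfl hEK ht ht' hsub h2 hemp'
    exact h5 (seg_sub h4 (Or.inl hp) (Or.inr ⟨hbE, h3⟩))
  · obtain ⟨h4, h5⟩ := half_cont (h.sc p b) hQ hQX ⟨p, hp⟩ rfl hEK ht' ht (by
      rw [union_comm t' t]
      exact hsub) h1 (by
      rw [inter_comm t' t]
      exact hemp')
    exact h5 (seg_sub h4 (Or.inl hp) (Or.inr ⟨hbE, h3⟩))

/-- end layers are continua -/
theorem LU.el_cont (h : LU M) {p b : M} (hd : HDc (seg p b)) : Cont (EL p b) := by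
  obtain ⟨S, hS⟩ : ∃ S, S = ⋂ C : {C : Set M // Cont C ∧ EL p b ⊆ C}, C.1 := ⟨_, rfl⟩
  have hSc : Cont S := by
    rw [hS]
    exact hull_cont h.hu ⟨seg p b, h.sc p b, el_sub p b⟩
  have hTS : EL p b ⊆ S := by
    rw [hS]
    exact subset_iInter fun C => C.2.2
  have hSm : ∀ C, Cont C → EL p b ⊆ C → S ⊆ C := by
    intro C hC hT
    rw [hS]
    exact iInter_subset (fun C : {C : Set M // Cont C ∧ EL p b ⊆ C} => C.1) ⟨C, hC, hT⟩
  have hSX : S ⊆ seg p b := hSm _ (h.sc p b) (el_sub p b)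
  have hST : S ⊆ EL p b := by
    intro z hz
    by_contra hzT
    have hzX : z ∈ seg p b := hSX hz
    have hbQ : b ∉ seg p z := fun h1 => hzT ⟨hzX, h1⟩
    have key : ∀ Q, Cont Q → p ∈ Q → Q ⊆ seg p b → (Q ∩ S).Nonempty → (∀ y ∈ EL p b, y ∉ Q) →
        S ⊆ closure (seg p b \ Q) ∧ seg p b \ Q ⊆ S := by
      intro Q hQ hp hQX hne hmiss
      refine ⟨hSm _ (h.clo hQ hp hQX (hmiss b (mem_el p b))) fun y hy =>
        subset_closure ⟨hy.1, hmiss y hy⟩, ?_⟩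
      rintro x ⟨hx, hxQ⟩
      rcases seg_sub (hQ.union hSc hne) (Or.inl hp) (Or.inr (hTS (mem_el p b))) hx with h1 | h1
      · exact absurd h1 hxQ
      · exact h1
    have hmissz : ∀ y ∈ EL p b, y ∉ seg p z := fun y hy h1 => hbQ (seg_mono h1 hy.2)
    obtain ⟨k1, k2⟩ := key (seg p z) (h.sc p z) (left_mem _ _) (seg_mono hzX)
      ⟨z, right_mem _ _, hz⟩ hmissz
    have hzb : z ≠ b := by
      rintro rfl
      exact hbQ (right_mem _ _)
    obtain ⟨S₁, S₂, h1, h2, h3, h4, h5, h6, h7⟩ := hd S hSc hSX z hz b (hTS (mem_el p b)) hzb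
    have claim : ∀ S₁ S₂ : Set M, Cont S₁ → Cont S₂ → S₁ ⊆ S → ¬ S ⊆ S₁ → ¬ S ⊆ S₂ →
        S ⊆ S₁ ∪ S₂ → z ∈ S₁ → False := by
      intro S₁ S₂ h1 h2 h3 h5 h6 h7 hz1
      have hU : Cont (seg p z ∪ S₁) := (h.sc p z).union h1 ⟨z, right_mem _ _, hz1⟩
      by_cases hm : ∀ y ∈ EL p b, y ∉ seg p z ∪ S₁
      · obtain ⟨k3, k4⟩ := key _ hU (Or.inl (left_mem _ _))
          (union_subset (seg_mono hzX) (h3.trans hSX)) ⟨z, Or.inl (right_mem _ _), hz⟩ hm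
        refine h6 (k3.trans (closure_minimal ?_ h2.cpt.isClosed))
        rintro x ⟨hx, hxU⟩
        rcases h7 (k4 ⟨hx, hxU⟩) with h8 | h8
        · exact absurd (Or.inr h8) hxU
        · exact h8
      · push Not at hm
        obtain ⟨y, hy, hyU⟩ := hm
        refine h5 (k1.trans (closure_minimal ?_ h1.cpt.isClosed))
        rintro x ⟨hx, hxz⟩
        have h8 : x ∈ seg p y := by
          rw [el_seg hy]
          exact hx
        rcases seg_sub hU (Or.inl (left_mem _ _)) hyU h8 with h9 | h9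
        · exact absurd h9 hxz
        · exact h9
    rcases h7 hz with h8 | h8
    · exact claim S₁ S₂ h1 h2 h3 h5 h6 h7 h8
    · exact claim S₂ S₁ h2 h1 h4 h6 h5 (by rw [union_comm]; exact h7) h8
  rw [← Subset.antisymm hST hTS]
  exact hSc

/-- a proper subcontinuum can be extended inside a continuum -/
theorem LU.ext [CompactSpace M] {T C : Set M} (hd : HDc C) (hT : Cont T) (hTn : T.Nonempty)
    (hC : Cont C) (hTC : T ⊆ C) (hCT : ¬ C ⊆ T) :
    ∃ y W, Cont W ∧ y ∈ W ∧ y ∉ T ∧ T ⊆ W ∧ W ⊆ C ∧ ¬ C ⊆ W := by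
  obtain ⟨c, hcC, hcT⟩ := not_subset.1 hCT
  obtain ⟨D, hD, hPD, hDC, hmin⟩ := exists_minc (P := fun D => C ⊆ D ∪ T) (K₀ := C)
    ⟨hC, subset_union_left⟩ (by
      intro D hD
      rcases hD hcC with h1 | h1
      · exact ⟨c, h1⟩
      · exact absurd h1 hcT) (by
      intro K hK _ x hx
      by_cases hxT : x ∈ T
      · exact Or.inr hxT
      · left
        rw [mem_iInter]
        intro n
        rcases (hK n).2 hx with h1 | h1
        · exact h1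
        · exact absurd h1 hxT)
  have hcD : c ∈ D := by
    rcases hPD hcC with h1 | h1
    · exact h1
    · exact absurd h1 hcT
  obtain ⟨d, -, hdD, hdT⟩ := isPreconnected_closed_iff.1 hC.con D T hD.cpt.isClosed
    hT.cpt.isClosed hPD ⟨c, hcC, hcD⟩ (by
      obtain ⟨t, ht⟩ := hTn
      exact ⟨t, hTC ht, ht⟩)
  have hcd : c ≠ d := by
    rintro rfl
    exact hcT hdT
  obtain ⟨D₁, D₂, h1, h2, h3, h4, h5, h6, h7⟩ := hd D hD hDC c hcD d hdD hcd
  have claim : ∀ D₁ D₂ : Set M, Cont D₁ → Cont D₂ → D₁ ⊆ D → D₂ ⊆ D → ¬ D ⊆ D₁ → ¬ D ⊆ D₂ →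
      D ⊆ D₁ ∪ D₂ → d ∈ D₁ → ∃ y W, Cont W ∧ y ∈ W ∧ y ∉ T ∧ T ⊆ W ∧ W ⊆ C ∧ ¬ C ⊆ W := by
    intro D₁ D₂ h1 h2 h3 h4 h5 h6 h7 hd1
    by_cases hy : ∃ y ∈ D₁, y ∉ T
    · obtain ⟨y, hy1, hy2⟩ := hy
      refine ⟨y, D₁ ∪ T, h1.union hT ⟨d, hd1, hdT⟩, Or.inl hy1, hy2, subset_union_right,
        union_subset (h3.trans hDC) hTC, fun h8 => h5 (hmin D₁ h1 h8 h3)⟩
    · push Not at hy
      exfalso
      refine h6 (hmin D₂ h2 ?_ h4)
      intro x hx
      rcases hPD hx with h8 | h8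
      · rcases h7 h8 with h9 | h9
        · exact Or.inr (hy x h9)
        · exact Or.inl h9
      · exact Or.inr h8
  rcases h7 hdD with h8 | h8
  · exact claim D₁ D₂ h1 h2 h3 h4 h5 h6 h7 h8
  · exact claim D₂ D₁ h2 h1 h4 h3 h6 h5 (by rw [union_comm]; exact h7) h8

variable {H : M → ℝ → M} {v : M → ℝ → ℝ} {e δ : ℝ} {N : ℕ}

/-- tame extension towards a closed set -/
theorem step [CompactSpace M] (D : Dx H v e δ N) {T₀ G₀ Z : Set M} (hd : HDc G₀) (hT₀ : Cont T₀)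
    (hne : T₀.Nonempty) (hG₀ : Cont G₀) (hTG : T₀ ⊆ G₀) (hnw : ¬ Wild H v e N T₀)
    (hZ : IsClosed Z) (hTZ : Disjoint T₀ Z) (hGZ : (G₀ ∩ Z).Nonempty) :
    ∃ y W, Cont W ∧ y ∈ W ∧ y ∉ T₀ ∧ T₀ ⊆ W ∧ W ⊆ G₀ ∧ ¬ Wild H v e N W ∧ Disjoint W Z := by
  obtain ⟨C, hC, ⟨hTC, hCP⟩, hCG, hmin⟩ := exists_minc
    (P := fun C => T₀ ⊆ C ∧ (Wild H v e N C ∨ (C ∩ Z).Nonempty)) (K₀ := G₀)
    ⟨hG₀, hTG, Or.inr hGZ⟩ (fun K hK => hne.mono hK.1) (by
      intro K hK hdec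
      refine ⟨subset_iInter fun n => (hK n).2.1, ?_⟩
      by_cases hall : ∀ n, Wild H v e N (K n)
      · exact Or.inl (wild_dec D (fun n => (hK n).1.cpt) hdec hall)
      · push Not at hall
        obtain ⟨n₀, hn₀⟩ := hall
        have hanti : Antitone K := antitone_nat_of_succ_le hdec
        right
        refine meets_dec (fun n => (hK n).1.cpt) hdec hZ fun n => ?_
        rcases (hK (max n n₀)).2.2 with h1 | h1
        · exact absurd (h1.mono (hanti (le_max_right _ _))) hn₀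
        · exact h1.mono (inter_subset_inter_left _ (hanti (le_max_left _ _))))
  have hCT : ¬ C ⊆ T₀ := by
    intro h1
    rcases hCP with h2 | ⟨z, hz, hzZ⟩
    · exact hnw (h2.mono h1)
    · exact Set.disjoint_left.1 hTZ (h1 hz) hzZ
  obtain ⟨y, W, hW, hyW, hyT, hTW, hWC, hCW⟩ := LU.ext (hd.mono hCG) hT₀ hne hC hTC hCT
  have hnP : ¬ (Wild H v e N W ∨ (W ∩ Z).Nonempty) := fun h1 => hCW (hmin W hW ⟨hTW, h1⟩ hWC)
  push Not at hnP
  refine ⟨y, W, hW, hyW, hyT, hTW, hWC.trans hCG, hnP.1, ?_⟩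
  rw [Set.disjoint_iff_inter_eq_empty]
  exact hnP.2


end Pool.FN57
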