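import Pool.Agent.Work.MP_36677d_fn.FN5

/-! # Local version: unions and images of hereditarily decomposable continua (helper57) -/

set_option autoImplicit false

open Set Filter Topology

namespace Pool.FN57

open Pool.TL94 Pool.FA57 Pool.FL57 Pool.FM57

variable {M : Type} [MetricSpace M]

theorem LU.int (h : LU M) {A B : Set M} (hA : Cont A) (hB : Cont B) : Cont (A ∩ B) :=
  ⟨hA.cpt.inter hB.cpt, h.hu _ _ hA.cpt hA.con hB.cpt hB.con⟩

/-- decompositions are inherited -/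
theorem LU.pull (h : LU M) {K A B : Set M} (hK : Cont K) (hA : Cont A) (hB : Cont B)
    (h1 : ¬ K ⊆ A) (h2 : ¬ K ⊆ B) (h3 : K ⊆ A ∪ B) :
    ∃ A' B' : Set M, Cont A' ∧ Cont B' ∧ A' ⊆ K ∧ B' ⊆ K ∧ ¬ K ⊆ A' ∧ ¬ K ⊆ B' ∧ K ⊆ A' ∪ B' :=
  ⟨K ∩ A, K ∩ B, h.int hK hA, h.int hK hB, inter_subset_left, inter_subset_left,
    fun h4 => h1 fun z hz => (h4 hz).2, fun h4 => h2 fun z hz => (h4 hz).2,
    fun z hz => (h3 hz).imp (fun h4 => ⟨hz, h4⟩) (fun h4 => ⟨hz, h4⟩)⟩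

theorem HDc.union (h : LU M) {A B : Set M} (hA : Cont A) (hB : Cont B) (h1 : HDc A)
    (h2 : HDc B) : HDc (A ∪ B) := by
  intro C hC hCAB x hx y hy hxy
  by_cases hCA : C ⊆ A
  · exact h1 C hC hCA x hx y hy hxy
  by_cases hCB : C ⊆ B
  · exact h2 C hC hCB x hx y hy hxy
  exact h.pull hC hA hB hCA hCB hCAB

theorem hd_unit : HDc (univ : Set unitInterval) := by
  have key : ∀ C : Set unitInterval, Cont C → ∀ x ∈ C, ∀ y ∈ C, x < y →
      ∃ A B : Set unitInterval, Cont A ∧ Cont B ∧ A ⊆ C ∧ B ⊆ C ∧ ¬ C ⊆ A ∧ ¬ C ⊆ B ∧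
        C ⊆ A ∪ B := by
    intro C hC x hx y hy hxy
    obtain ⟨m, hm1, hm2⟩ := exists_between hxy
    refine ⟨C ∩ Iic m, C ∩ Ici m, ⟨hC.cpt.inter_right isClosed_Iic,
      (hC.con.ordConnected.inter ordConnected_Iic).isPreconnected⟩,
      ⟨hC.cpt.inter_right isClosed_Ici,
      (hC.con.ordConnected.inter ordConnected_Ici).isPreconnected⟩, inter_subset_left,
      inter_subset_left, fun h1 => absurd (h1 hy).2 (not_le.2 hm2),
      fun h1 => absurd (h1 hx).2 (not_le.2 hm1), fun z hz => ?_⟩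
    rcases le_total z m with h1 | h1
    · exact Or.inl ⟨hz, h1⟩
    · exact Or.inr ⟨hz, h1⟩
  intro C hC _ x hx y hy hxy
  rcases lt_or_gt_of_ne hxy with h1 | h1
  · exact key C hC x hx y hy h1
  · exact key C hC y hy x hx h1

/-- images of hereditarily decomposable continua in hereditarily unicoherent spaces are
hereditarily decomposable -/
theorem HDc.image {α : Type} [MetricSpace α] [CompactSpace α] (h : LU M) {C : Set α}
    (hC : Cont C) (hd : HDc C) {f : α → M} (hf : Continuous f) : HDc (f '' C) := by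
  intro K hK hKC x hx y hy hxy
  obtain ⟨Y, hY, hKY, hYC, hmin⟩ := exists_minc (P := fun Y => K ⊆ f '' Y) (K₀ := C)
    ⟨hC, hKC⟩ (fun Y hY => by obtain ⟨a, ha, -⟩ := hY hx; exact ⟨a, ha⟩) (by
      intro Y hY hdec z hz
      have h1 : (⋂ n, Y n ∩ f ⁻¹' {z}).Nonempty := by
        refine IsCompact.nonempty_iInter_of_sequence_nonempty_isCompact_isClosed _
          (fun n => inter_subset_inter_left _ (hdec n)) (fun n => ?_)
          ((hY 0).1.cpt.inter_right (isClosed_singleton.preimage hf))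
          (fun n => (hY n).1.cpt.isClosed.inter (isClosed_singleton.preimage hf))
        obtain ⟨a, ha, haz⟩ := (hY n).2 hz
        exact ⟨a, ha, haz⟩
      obtain ⟨a, ha⟩ := h1
      rw [mem_iInter] at ha
      exact ⟨a, mem_iInter.2 fun n => (ha n).1, (ha 0).2⟩)
  obtain ⟨a, ha, rfl⟩ := hKY hx
  obtain ⟨b, hb, rfl⟩ := hKY hy
  obtain ⟨A, B, hA, hB, hAY, hBY, hnA, hnB, hAB⟩ := hd Y hY hYC a ha b hb
    fun h1 => hxy (by rw [h1])
  refine h.pull hK ⟨hA.cpt.image hf, hA.con.image _ hf.continuousOn⟩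
    ⟨hB.cpt.image hf, hB.con.image _ hf.continuousOn⟩ (fun h1 => hnA (hmin A hA h1 hAY))
    (fun h1 => hnB (hmin B hB h1 hBY)) ?_
  rw [← image_union]
  exact hKY.trans (image_mono hAB)

variable [CompactSpace M] {H : M → ℝ → M}

/-- images under homotopies -/
theorem HDc.hh (h : LU M) (cH : Continuous (fun q : M × ℝ => H q.1 q.2)) {C : Set M}
    (hC : Cont C) (hd : HDc C) : HDc (HH H C) := by
  intro K hK hKC x hx y hy hxy
  obtain ⟨Y, hY, hKY, hYC, hmin⟩ := exists_minc (P := fun Y => K ⊆ HH H Y) (K₀ := C)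
    ⟨hC, hKC⟩ (fun Y hY => by obtain ⟨q, hq, -⟩ := hY hx; exact ⟨q.1, hq.1⟩) (by
      intro Y hY hdec z hz
      obtain ⟨w, hw, t, ht, hwt⟩ := dec_img cH (fun n => (hY n).1.cpt) hdec (a := 0) (b := 1)
        (B := fun _ => {z}) (fun _ => isClosed_singleton) (fun _ => Subset.rfl) (fun n => by
          obtain ⟨q, hq, hqz⟩ := (hY n).2 hz
          exact ⟨q.1, hq.1, q.2, hq.2, hqz⟩)
      have h1 : H w t = z := mem_iInter.1 hwt 0
      rw [← h1]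
      exact mem_hh hw ht)
  by_cases hYn : ∃ a ∈ Y, ∃ b ∈ Y, a ≠ b
  · obtain ⟨a, ha, b, hb, hab⟩ := hYn
    obtain ⟨A, B, hA, hB, hAY, hBY, hnA, hnB, hAB⟩ := hd Y hY hYC a ha b hb hab
    refine h.pull hK (hh_cont cH hA) (hh_cont cH hB) (fun h1 => hnA (hmin A hA h1 hAY))
      (fun h1 => hnB (hmin B hB h1 hBY)) fun z hz => ?_
    obtain ⟨q, hq, rfl⟩ := hKY hz
    rcases hAB hq.1 with h1 | h1
    · exact Or.inl (mem_hh h1 hq.2)
    · exact Or.inr (mem_hh h1 hq.2)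
  · push Not at hYn
    obtain ⟨q, hq, -⟩ := hKY hx
    have h1 : K ⊆ (fun t : unitInterval => H q.1 t) '' univ := by
      intro z hz
      obtain ⟨q', hq', rfl⟩ := hKY hz
      refine ⟨⟨q'.2, hq'.2⟩, mem_univ _, ?_⟩
      rw [hYn q.1 hq.1 q'.1 hq'.1]
    exact HDc.image h ⟨isCompact_univ, isPreconnected_univ⟩ hd_unit
      (f := fun t : unitInterval => H q.1 t)
      (cH.comp (continuous_const.prodMk continuous_subtype_val)) K hK h1 x hx y hy hxy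

/-- the points reached from `x` by hereditarily decomposable subcontinua of `Q` -/
def Rch (Q : Set M) (x : M) : Set M := {y | ∃ C, Cont C ∧ C ⊆ Q ∧ HDc C ∧ x ∈ C ∧ y ∈ C}

theorem dom_rch (h : LU M) (cH : Continuous (fun q : M × ℝ => H q.1 q.2)) {Q : Set M}
    (hQ : IsClosed Q) (hQH : ∀ y ∈ Q, ∀ t ∈ Icc (0:ℝ) 1, H y t ∈ Q) {x : M} {P : Set M}
    (hP : Cont P) (hPQ : P ⊆ Q) (hPd : HDc P) (hxP : x ∈ P) (hHP : H x 0 ∈ P)
    (hlim : ∀ z : ℕ → M, (∀ a b c, a ≤ b → b ≤ c → z b ∈ seg (z a) (z c)) →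
      (∀ n, HDc (seg (z 0) (z n))) → (∀ n, seg (z 0) (z n) ⊆ Q) → HDc (Tl z 0)) :
    Dom H (Rch Q x) := by
  have hun : ∀ {C C' : Set M}, Cont C → Cont C' → x ∈ C → x ∈ C' → Cont (C ∪ C') :=
    fun hC hC' h1 h2 => hC.union hC' ⟨x, h1, h2⟩
  refine ⟨?_, ?_, ?_, ?_⟩
  · rintro z ⟨C, hC, hCQ, hCd, hxC, hzC⟩ t ht
    have h0 : (0:ℝ) ∈ Icc (0:ℝ) 1 := left_mem_Icc.2 zero_le_one
    refine ⟨HH H C ∪ P, (hh_cont cH hC).union hP ⟨H x 0, mem_hh hxC h0, hHP⟩, ?_,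
      HDc.union h (hh_cont cH hC) hP (HDc.hh h cH hC hCd) hPd, Or.inr hxP,
      Or.inl (mem_hh hzC ht)⟩
    refine union_subset ?_ hPQ
    rintro _ ⟨q, hq, rfl⟩
    exact hQH q.1 (hCQ hq.1) q.2 hq.2
  · rintro y ⟨C, hC, hCQ, hCd, hxC, hyC⟩ y' ⟨C', hC', hCQ', hCd', hxC', hyC'⟩ w hw
    exact ⟨C ∪ C', hun hC hC' hxC hxC', union_subset hCQ hCQ', HDc.union h hC hC' hCd hCd',
      Or.inl hxC, seg_sub (hun hC hC' hxC hxC') (Or.inl hyC) (Or.inr hyC') hw⟩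
  · rintro y ⟨C, hC, hCQ, hCd, hxC, hyC⟩ y' ⟨C', hC', hCQ', hCd', hxC', hyC'⟩
    exact (HDc.union h hC hC' hCd hCd').mono
      (seg_sub (hun hC hC' hxC hxC') (Or.inl hyC) (Or.inr hyC'))
  · intro z hz hbt
    have h1 : ∀ n, ∃ C, Cont C ∧ C ⊆ Q ∧ HDc C ∧ seg (z 0) (z n) ⊆ C := by
      intro n
      obtain ⟨C, hC, hCQ, hCd, hxC, hyC⟩ := hz 0
      obtain ⟨C', hC', hCQ', hCd', hxC', hyC'⟩ := hz n
      exact ⟨C ∪ C', hun hC hC' hxC hxC', union_subset hCQ hCQ', HDc.union h hC hC' hCd hCd',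
        seg_sub (hun hC hC' hxC hxC') (Or.inl hyC) (Or.inr hyC')⟩
    have h2 : ∀ n, seg (z 0) (z n) ⊆ Q := by
      intro n
      obtain ⟨C, -, h3, -, h4⟩ := h1 n
      exact h4.trans h3
    have h3 : HDc (Tl z 0) := hlim z hbt (fun n => by
      obtain ⟨C, -, -, h3, h4⟩ := h1 n
      exact h3.mono h4) h2
    refine ⟨?_, h3⟩
    obtain ⟨C, hC, hCQ, hCd, hxC, hyC⟩ := hz 0
    have h4 : Tl z 0 ⊆ Q := by
      refine closure_minimal (iUnion_subset fun m => ?_) hQ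
      simpa using h2 _
    intro w hw
    exact ⟨C ∪ Tl z 0, hC.union (h.tl z 0) ⟨z 0, hyC, mem_tl le_rfl⟩, union_subset hCQ h4,
      HDc.union h hC (h.tl z 0) hCd h3, Or.inl hxC, Or.inr hw⟩

end Pool.FN57
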