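import Pool.Agent.Work.MP_36677d_fn.FN6

/-! # Local version: the theorem (helper57) -/

set_option autoImplicit false

open Set Filter Topology

namespace Pool.FN57

open Pool.TL94 Pool.FA57 Pool.FL57 Pool.FM57

variable {M : Type} [MetricSpace M] [CompactSpace M]

theorem hdc_of {Q : Set M} (h : HDec Q) : HDc Q := by
  intro C hC hCQ x hx y hy hxy
  obtain ⟨A, B, h1, h2, h3, h4, h5, h6, h7⟩ := h C hCQ hC.cpt.isClosed ⟨⟨x, hx⟩, hC.con⟩
    ⟨x, hx, y, hy, hxy⟩
  have hA : A ⊆ C := by rw [← h7]; exact subset_union_left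
  have hB : B ⊆ C := by rw [← h7]; exact subset_union_right
  exact ⟨A, B, ⟨h1.isCompact, h2.isPreconnected⟩, ⟨h3.isCompact, h4.isPreconnected⟩, hA, hB,
    fun h8 => h5 (Subset.antisymm hA h8), fun h8 => h6 (Subset.antisymm hB h8), h7.ge⟩

theorem hdec_of {Q : Set M} (h : HDc Q) : HDec Q := by
  intro X hXQ hX hXc hXn
  obtain ⟨x, hx, y, hy, hxy⟩ := hXn
  obtain ⟨A, B, hA, hB, hAX, hBX, hnA, hnB, hAB⟩ := h X ⟨hX.isCompact, hXc.isPreconnected⟩ hXQ
    x hx y hy hxy
  have hAn : A.Nonempty := by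
    by_contra h1
    rw [not_nonempty_iff_eq_empty] at h1
    rw [h1, empty_union] at hAB
    exact hnB hAB
  have hBn : B.Nonempty := by
    by_contra h1
    rw [not_nonempty_iff_eq_empty] at h1
    rw [h1, union_empty] at hAB
    exact hnA hAB
  exact ⟨A, B, hA.cpt.isClosed, ⟨hAn, hA.con⟩, hB.cpt.isClosed, ⟨hBn, hB.con⟩,
    fun h1 => hnA h1.ge, fun h1 => hnB h1.ge, Subset.antisymm (union_subset hAX hBX) hAB⟩

/-- the theorem -/
theorem mainU [ConnectedSpace M]
    (hT : TreeLike M ∨ ∀ A B : Set M, IsClosed A → IsConnected A → IsClosed B → IsConnected B →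
      IsPreconnected (A ∩ B))
    (hb : ∀ (x p : M) (I : ℕ → Set M) (q : ℕ → M), Monotone I →
      (∀ n, IsClosed (I n) ∧ IsConnected (I n) ∧ I n ⊆ closure (pathComponent x) ∧ HDec (I n)) →
      (∀ n, p ∈ I n ∧ q n ∈ I n ∧
        ∀ K ⊆ I n, IsClosed K → IsConnected K → p ∈ K → q n ∈ K → K = I n) →
      HDec (closure (⋃ n, I n)))
    (h3 : HDec (univ : Set M) ∨ ∀ f : C(M, M), ∃ x, Joined x (f x))
    (g : C(M × unitInterval, M × unitInterval)) : ∃ p, g p = p := by
  rcases h3 with h3 | h3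
  · exact mainQ hT isClosed_univ isConnected_univ h3 g fun _ _ _ => mem_univ _
  have hHU : HU M := by
    rcases hT with h1 | h1
    · exact h1.hu
    · exact hu_of_closed h1
  have h : LU M := ⟨hHU, fun a b => cont_seg_of hHU ⟨isCompact_univ, isPreconnected_univ⟩
    (mem_univ a) (mem_univ b)⟩
  by_contra hcon
  push Not at hcon
  obtain ⟨v, e, δ, N, D⟩ := exists_dx g hcon
  obtain ⟨x, hx⟩ := h3 ⟨fun y => (g (y, 0)).1, by fun_prop⟩
  have hx' : Joined x ((g (x, projIcc (0:ℝ) 1 zero_le_one 0)).1) := by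
    simpa using hx
  have cH := D.D.cH
  -- the closure of the path component is invariant
  have hQH : ∀ y ∈ closure (pathComponent x), ∀ t ∈ Icc (0:ℝ) 1,
      (g (y, projIcc (0:ℝ) 1 zero_le_one t)).1 ∈ closure (pathComponent x) := by
    intro y hy t ht
    refine map_mem_closure (f := fun y : M => (g (y, projIcc (0:ℝ) 1 zero_le_one t)).1)
      (by fun_prop) hy fun y hy => ?_
    have hy' : Joined x y := hy
    have k1 : Joined ((g (x, 0)).1) ((g (y, 0)).1) :=
      hy'.map (f := fun y : M => (g (y, 0)).1) (by fun_prop)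
    have k2 := joined_track (H := fun x t => (g (x, projIcc (0:ℝ) 1 zero_le_one t)).1) cH y
      (left_mem_Icc.2 (zero_le_one (α := ℝ))) ht
    have k3 : projIcc (0:ℝ) 1 zero_le_one 0 = 0 := projIcc_left zero_le_one
    simp only [k3] at k2
    exact (hx.trans k1).trans k2
  obtain ⟨γ⟩ := hx'
  have hPQ : γ '' univ ⊆ closure (pathComponent x) := by
    rintro _ ⟨t, -, rfl⟩
    refine subset_closure ?_
    have k1 := Pool.RY.RDD_joined_img (convex_Icc (0 : ℝ) 1) (f := γ.extend)
      γ.continuous_extend.continuousOn (left_mem_Icc.2 zero_le_one) t.2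
    have k2 : Joined x (γ t) := by simpa using k1
    exact k2
  refine no_dx h D (dom_rch h cH isClosed_closure hQH (P := γ '' univ)
    ⟨isCompact_univ.image γ.continuous, isPreconnected_univ.image _ γ.continuous.continuousOn⟩
    hPQ (HDc.image h ⟨isCompact_univ, isPreconnected_univ⟩ hd_unit γ.continuous)
    ⟨0, mem_univ _, γ.source⟩ ⟨1, mem_univ _, γ.target⟩ ?_) ⟨x, {x}, cont_singleton x, ?_, ?_,
      rfl, rfl⟩
  · intro z hbt hzd hzQ
    have h1 := hb x (z 0) (fun n => seg (z 0) (z n)) z (fun m n hmn =>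
      seg_mono (hbt 0 m n (Nat.zero_le m) hmn)) (fun n => ⟨isClosed_seg _ _,
        ⟨⟨z 0, left_mem _ _⟩, (h.sc _ _).con⟩, hzQ n, hdec_of (hzd n)⟩)
      (fun n => ⟨left_mem _ _, right_mem _ _, fun K hKs hK hKc h1 h2 =>
        Subset.antisymm hKs (seg_sub ⟨hK.isCompact, hKc.isPreconnected⟩ h1 h2)⟩)
    refine (hdc_of h1).mono (closure_mono (iUnion_subset fun m => ?_))
    exact subset_iUnion_of_subset (m : ℕ) Subset.rfl
  · exact singleton_subset_iff.2 (subset_closure (Joined.refl x))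
  · intro C _ hC a ha b hb hab
    exact absurd ((mem_singleton_iff.1 (hC ha)).trans (mem_singleton_iff.1 (hC hb)).symm) hab

end Pool.FN57
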